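import Pool.Agent.Q293.DirSumDih

/-!
# Algebraic recurrence does not pass to subgroups of finite index

The group is the generalized dihedral group of the direct sum `V` of countably many copies of the
integers. Every walk on it visits a reflection; the reflections are involutions which conjugate
every translation to its inverse, hence the semigroups generated by the tails of the walk are
groups. The translations form a subgroup of index two isomorphic to `V`, and `V` is not
algebraically recurrent: the steps are `±e_k`, where `e_k` runs over the standard basis and `k` has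
tails `P(k ≥ m) = 1/(m+1)`.
-/

set_option autoImplicit false

open MeasureTheory

namespace Pool.Agent.Results.MP_7faad7_pr.FiniteIndexNotAR

/-- `μ` is symmetric, and its support generates the group. -/
def Admissible {G : Type} [Group G] (μ : PMF G) : Prop :=
  (∀ g : G, μ g⁻¹ = μ g) ∧ Subgroup.closure μ.support = ⊤

/-- The law of the i.i.d. steps `ω 0, ω 1, ...` with law `μ`; every subset of `G` is measurable. -/
noncomputable def steps {G : Type} (μ : PMF G) :
    @Measure (ℕ → G) (@MeasurableSpace.pi ℕ (fun _ => G) (fun _ => ⊤)) :=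
  @Measure.infinitePi ℕ (fun _ => G) (fun _ => ⊤) (fun _ : ℕ => @PMF.toMeasure G ⊤ μ)

/-- The walk: `walk ω m = ω 0 * ω 1 * ... * ω (m - 1)`. -/
def walk {G : Type} [Group G] (ω : ℕ → G) (m : ℕ) : G := ((List.range m).map ω).prod

/-- The semigroup generated by `walk ω n, walk ω (n + 1), ...`. -/
def tail {G : Type} [Group G] (ω : ℕ → G) (n : ℕ) : Subsemigroup G :=
  Subsemigroup.closure {g | ∃ m, n ≤ m ∧ g = walk ω m}

/-- The pair `(G, μ)` is algebraically recurrent. -/
def PairAR {G : Type} [Group G] (μ : PMF G) : Prop :=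
  ∀ n : ℕ, 1 ≤ n → ∀ᵐ ω ∂(steps μ), tail ω n = ⊤

/-- The group `G` is algebraically recurrent. -/
def GroupAR (G : Type) [Group G] : Prop :=
  ∀ μ : PMF G, Admissible μ → PairAR μ

/-- There are a countable algebraically recurrent group `G` and a subgroup `H` of index two which
is not algebraically recurrent: `H` carries a symmetric generating probability measure `μ` such that
`(H, μ)` is not algebraically recurrent and in fact, almost surely, the identity is missing from
the semigroup generated by the walk after some time. -/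
theorem result : ∃ (G : Type) (_ : Group G) (_ : Countable G) (H : Subgroup G),
    GroupAR G ∧ H.index = 2 ∧ ∃ μ : PMF H, Admissible μ ∧ ¬ PairAR μ ∧
      ∀ᵐ ω ∂(steps μ), ∃ n : ℕ, 1 ≤ n ∧ (1 : H) ∉ tail ω n := by
  have hs : ∀ᵐ ω ∂(steps Q293.DirSum.Dih.muT), ∃ n : ℕ, 1 ≤ n ∧
      (1 : Q293.DirSum.Dih.T) ∉ tail ω n := by
    let _ : MeasurableSpace Q293.DirSum.Dih.T := ⊤
    have : DiscreteMeasurableSpace Q293.DirSum.Dih.T := ⟨fun _ => trivial⟩
    exact Q293.DirSum.Dih.muT_strong
  have hnot : ¬ PairAR Q293.DirSum.Dih.muT := by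
    let _ : MeasurableSpace Q293.DirSum.Dih.T := ⊤
    have : DiscreteMeasurableSpace Q293.DirSum.Dih.T := ⟨fun _ => trivial⟩
    obtain ⟨n, hn, hpos⟩ := Q293.AR.pos_of_ae Q293.DirSum.Dih.muT hs
    intro h
    have h1 := h n hn
    rw [ae_iff] at h1
    exact hpos.ne' h1
  refine ⟨Q293.DirSum.Dih, inferInstance, inferInstance, Q293.DirSum.Dih.T, ?_,
    Q293.DirSum.Dih.T_index, Q293.DirSum.Dih.muT, Q293.DirSum.Dih.muT_adm, hnot, hs⟩
  intro μ hμ n _
  let _ : MeasurableSpace Q293.DirSum.Dih := ⊤
  have : DiscreteMeasurableSpace Q293.DirSum.Dih := ⟨fun _ => trivial⟩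
  exact Q293.DirSum.Dih.ar μ hμ n

end Pool.Agent.Results.MP_7faad7_pr.FiniteIndexNotAR
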